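import Pool.Agent.MP_a87d5d_lc.Main

open Pool.Agent.MP_a87d5d_lc Pool.Agent.Lib.Kernel

/-- A polynomial kernel for Fair Feedback Vertex Set parameterized by `k` puts `NP` into
`coNP/poly`. -/
theorem Pool.Agent.Results.MP_a87d5d_lc.NoPolyKernel.result :
    HasPolyKernel → N68a2faeb.NP ⊆ coNPpoly :=
  main
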